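import Pool.Agent.Helper14.CV.StA

/-! # Project CV, module P345: Hecke, Fricke and translation relations of the potential -/

set_option autoImplicit false

open Filter Topology

namespace Pool.Agent.Helper86.CV

open Pool.Agent.Helper14.CV

/-- the point `y i` -/
private noncomputable def wy (y : ℝ) : ℂ := ((0 : ℝ) : ℂ) + y * Complex.I

private theorem wy_re (y : ℝ) : (wy y).re = 0 := by simp [wy]

private theorem wy_im (y : ℝ) : (wy y).im = y := by simp [wy]

private theorem lin_re (c d : ℤ) (y : ℝ) : ((c : ℂ) * wy y + d).re = d := by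
  rw [Complex.add_re, Complex.mul_re, wy_re, wy_im, Complex.intCast_re, Complex.intCast_im,
    Complex.intCast_re]
  ring

private theorem lin_im (c d : ℤ) (y : ℝ) : ((c : ℂ) * wy y + d).im = c * y := by
  rw [Complex.add_im, Complex.mul_im, wy_re, wy_im, Complex.intCast_re, Complex.intCast_im,
    Complex.intCast_im]
  ring

private theorem lin_ne {c d : ℤ} {y : ℝ} (hy : 0 < y) (h : c ≠ 0 ∨ d ≠ 0) :
    (c : ℂ) * wy y + d ≠ 0 := by
  intro h0
  have h1 := congrArg Complex.re h0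
  have h2 := congrArg Complex.im h0
  rw [lin_re, Complex.zero_re] at h1
  rw [lin_im, Complex.zero_im] at h2
  have h3 : (c : ℝ) = 0 := by
    rcases mul_eq_zero.1 h2 with h | h
    · exact h
    · exact absurd h hy.ne'
  rcases h with h | h
  · exact h (by exact_mod_cast h3)
  · exact h (by exact_mod_cast h1)

private theorem ne_of_det {a b c d : ℤ} (h : 0 < a * d - b * c) :
    (a ≠ 0 ∨ b ≠ 0) ∧ (c ≠ 0 ∨ d ≠ 0) := by
  constructor
  · by_contra hc
    push Not at hc
    rw [hc.1, hc.2] at h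
    simp at h
  · by_contra hc
    push Not at hc
    rw [hc.1, hc.2] at h
    simp at h

private theorem frac_im {a b c d : ℤ} (h : 0 < a * d - b * c) {y : ℝ} (hy : 0 < y) :
    0 < (((a : ℂ) * wy y + b) / ((c : ℂ) * wy y + d)).im := by
  have h1 := lin_ne hy (ne_of_det h).2
  have h2 : 0 < Complex.normSq ((c : ℂ) * wy y + d) := Complex.normSq_pos.2 h1
  rw [Complex.div_im, lin_re, lin_im, lin_re, lin_im, ← sub_div]
  refine div_pos ?_ h2
  have h3 : (0 : ℝ) < a * d - b * c := by exact_mod_cast h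
  have h4 : (a : ℝ) * y * d - b * (c * y) = (a * d - b * c) * y := by ring
  rw [h4]
  exact mul_pos h3 hy

private theorem pot_lim {N : ℕ} {f : CuspForm (G0 N) 2} {G : ℤ → ℤ → ℂ} (hG : IsPot f G)
    (a b c d : ℤ) (h : 0 < a * d - b * c) :
    Tendsto (fun y : ℝ => Fp f (((a : ℂ) * wy y + b) / ((c : ℂ) * wy y + d))) atTop
      (𝓝 (G a c)) := hG a b c d h 0

/-- a matrix with a given first column -/
private theorem exists_col (p q : ℤ) (h : p ≠ 0 ∨ q ≠ 0) : ∃ b d : ℤ, 0 < p * d - b * q := by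
  refine ⟨-q, p, ?_⟩
  rcases h with h | h
  · have : 0 < p ^ 2 := by positivity
    nlinarith [sq_nonneg q]
  · have : 0 < q ^ 2 := by positivity
    nlinarith [sq_nonneg p]

theorem hP3 (h2 : StA2) : StP3 := by
  intro N hN f G l lam hG hl hE p q hpq
  obtain ⟨b, d, hdet⟩ := exists_col p q hpq
  have hl' : (0 : ℤ) < l := by exact_mod_cast hl
  have hlC : (l : ℂ) ≠ 0 := by exact_mod_cast hl.ne'
  have d1 : 0 < ((l : ℤ) * p) * d - ((l : ℤ) * b) * q := by
    have : ((l : ℤ) * p) * d - ((l : ℤ) * b) * q = l * (p * d - b * q) := by ring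
    rw [this]; exact mul_pos hl' hdet
  have d2 : ∀ j : ℕ, 0 < (p + 1 * (j : ℤ) * q) * ((l : ℤ) * d) - (b + (j : ℤ) * d) * ((l : ℤ) * q) := by
    intro j
    have : (p + 1 * (j : ℤ) * q) * ((l : ℤ) * d) - (b + (j : ℤ) * d) * ((l : ℤ) * q) =
      l * (p * d - b * q) := by ring
    rw [this]; exact mul_pos hl' hdet
  have t0 := (pot_lim hG p b q d hdet).const_mul lam
  have t1 := pot_lim hG _ _ _ _ d1
  have t2 : Tendsto (fun y : ℝ => ∑ j ∈ Finset.range l,
      Fp f ((((p + 1 * (j : ℤ) * q : ℤ) : ℂ) * wy y + ((b + (j : ℤ) * d : ℤ) : ℂ)) /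
        ((((l : ℤ) * q : ℤ) : ℂ) * wy y + (((l : ℤ) * d : ℤ) : ℂ)))) atTop
      (𝓝 (∑ j ∈ Finset.range l, G (p + 1 * (j : ℤ) * q) ((l : ℤ) * q))) :=
    tendsto_finsetSum _ fun j _ => pot_lim hG _ _ _ _ (d2 j)
  have t3 := t1.add t2
  refine tendsto_nhds_unique (t3.congr' ?_) t0
  filter_upwards [eventually_gt_atTop 0] with y hy
  have hden := lin_ne hy (ne_of_det hdet).2
  have him := frac_im hdet hy
  rw [← h2 N hN f l lam hl hE _ him]
  congr 1
  · congr 1
    push_cast
    rw [← mul_div_assoc]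
    congr 1
    ring
  · refine Finset.sum_congr rfl fun j _ => ?_
    congr 1
    push_cast
    have e : ((l : ℂ) * q * wy y + (l : ℂ) * d) = l * ((q : ℂ) * wy y + d) := by ring
    rw [e, div_add' _ _ _ hden, div_div, mul_comm (((q : ℂ) * wy y + d)) (l : ℂ)]
    congr 1
    ring

theorem hP4 (h3W : StA3W) (_hP1 : StP1) : StP4 := by
  intro n f G hG hW
  obtain ⟨k, hk⟩ := h3W (2 ^ n) inferInstance f hW
  refine ⟨k, fun p q hpq => ?_⟩
  obtain ⟨b, d, hdet⟩ := exists_col p q hpq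
  have d1 : 0 < (0 * p + -1 * q) * ((2 ^ n : ℤ) * b) - (-d) * ((2 ^ n : ℤ) * p + 0 * q) := by
    have : (0 * p + -1 * q) * ((2 ^ n : ℤ) * b) - (-d) * ((2 ^ n : ℤ) * p + 0 * q) =
      2 ^ n * (p * d - b * q) := by ring
    rw [this]; exact mul_pos (by positivity) hdet
  have t0 := ((pot_lim hG p b q d hdet).neg).add_const k
  have t1 := pot_lim hG _ _ _ _ d1
  refine tendsto_nhds_unique (t1.congr' ?_) t0
  filter_upwards [eventually_gt_atTop 0] with y hy
  have hden := lin_ne hy (ne_of_det hdet).2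
  have hnum := lin_ne hy (ne_of_det hdet).1
  have him := frac_im hdet hy
  rw [← hk _ him]
  congr 1
  have h2n : (2 : ℂ) ^ n ≠ 0 := pow_ne_zero _ two_ne_zero
  push_cast
  have e : ((2 : ℂ) ^ n * p + 0 * q) * wy y + 2 ^ n * b = 2 ^ n * ((p : ℂ) * wy y + b) := by ring
  rw [e]
  field_simp
  ring

theorem hP5 (h3T : StA3T) (_hP1 : StP1) : StP5 := by
  intro N hN f G hG hT
  have hk := h3T N hN f hT
  refine ⟨0, fun p q hpq => ?_⟩
  obtain ⟨b, d, hdet⟩ := exists_col p q hpq
  have d1 : 0 < (2 * p + 1 * q) * (2 * d) - (2 * b + d) * (0 * p + 2 * q) := by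
    have : (2 * p + 1 * q) * (2 * d) - (2 * b + d) * (0 * p + 2 * q) =
      4 * (p * d - b * q) := by ring
    rw [this]; exact mul_pos (by norm_num) hdet
  have t0 := (pot_lim hG p b q d hdet).neg
  have t1 := pot_lim hG _ _ _ _ d1
  rw [add_zero]
  refine tendsto_nhds_unique (t1.congr' ?_) t0
  filter_upwards [eventually_gt_atTop 0] with y hy
  have hden := lin_ne hy (ne_of_det hdet).2
  have him := frac_im hdet hy
  rw [← hk _ him]
  congr 1
  push_cast
  have e : (0 * (p : ℂ) + 2 * q) * wy y + 2 * d = 2 * ((q : ℂ) * wy y + d) := by ring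
  rw [e]
  field_simp
  ring

end Pool.Agent.Helper86.CV
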