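import Pool.Agent.Helper14.CV.StD

/-! # Project CV, module Uni: a symbol with vanishing plane functions is constant -/

set_option autoImplicit false

namespace Pool.Agent.Helper86.CV

open Pool.Agent.Helper14.CV

private theorem unit_Uni (r : ℕ) {a : ℤ} (ha : a % 2 = 1) (b : ℤ) :
    ∃ x : ZMod (2 ^ r), (b : ZMod (2 ^ r)) = x * (a : ZMod (2 ^ r)) := by
  have h1 : IsCoprime ((2 ^ r : ℕ) : ℤ) a := by
    push_cast
    refine IsCoprime.pow_left ?_
    exact ⟨-(a / 2), 1, by omega⟩
  obtain ⟨u, hu⟩ := (ZMod.coe_int_isUnit_iff_isCoprime a (2 ^ r)).2 h1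
  refine ⟨b * ((u⁻¹ : (ZMod (2 ^ r))ˣ) : ZMod (2 ^ r)), ?_⟩
  rw [← hu, mul_assoc, Units.inv_mul, mul_one]

/-- the values on the edges of the class of the identity -/
private theorem base_Uni (hEdg : StEdg) {R : Type} [AddCommGroup R] {r s : ℕ} {G : ℤ → ℤ → R}
    (hG : Sym (r + 1) (s + 1) G)
    (h1 : ∀ (x : ZMod (2 ^ r)) (y : ZMod (2 ^ s)), edgeF 1 1 0 0 1 G x y = 0)
    (h3 : ∀ (x : ZMod (2 ^ r)) (y : ZMod (2 ^ s)), edgeF 1 1 1 0 1 G x y = 0)
    {a b c d : ℤ} (hdet : a * d - b * c = 1) (ha : a % 2 = 1) (hb : b % 2 = 0) (hc : c % 2 = 0)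
    (hd : d % 2 = 1) : G a c = G b d ∧ G (a + b) (c + d) = G b d := by
  obtain ⟨b', rfl⟩ : ∃ b', b = 2 * b' := ⟨b / 2, by omega⟩
  obtain ⟨c', rfl⟩ : ∃ c', c = 2 * c' := ⟨c / 2, by omega⟩
  obtain ⟨x, hx⟩ := unit_Uni r ha b'
  obtain ⟨y, hy⟩ := unit_Uni s hd c'
  have hP : Pl 1 a b' c' d x y := ⟨by linear_combination hdet, hx, hy⟩
  have e1 := hEdg R inferInstance 1 r s G hG 1 0 0 1 (Or.inl one_ne_zero) (Or.inr one_ne_zero)
    x y a b' c' d hP
  have e3 := hEdg R inferInstance 1 r s G hG 1 1 0 1 (Or.inl one_ne_zero) (Or.inr one_ne_zero)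
    x y a b' c' d hP
  rw [h1] at e1
  rw [h3] at e3
  have f1 := sub_eq_zero.1 e1.symm
  have f3 := sub_eq_zero.1 e3.symm
  have p1 : a * 1 + 2 ^ 1 * b' * 0 = a := by ring
  have p2 : 2 * c' * 1 + d * 0 = 2 * c' := by ring
  have p3 : a * 0 + 2 ^ 1 * b' * 1 = 2 * b' := by ring
  have p4 : 2 * c' * 0 + d * 1 = d := by ring
  have p5 : a * 1 + 2 ^ 1 * b' * 1 = a + 2 * b' := by ring
  have p6 : 2 * c' * 1 + d * 1 = 2 * c' + d := by ring
  rw [p1, p2, p3, p4] at f1
  rw [p5, p6, p3, p4] at f3
  exact ⟨f1, f3⟩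

theorem hUni (hFar : StFar) (hEdg : StEdg) : StUni := by
  intro R _ r s G hG h1 h3
  refine hFar R inferInstance G hG.1 ?_
  -- matrices with odd diagonal
  have key : ∀ a b c d : ℤ, a * d - b * c = 1 → a % 2 = 1 → d % 2 = 1 → G a c = G b d := by
    intro a b c d hdet ha hd
    have hbc : b % 2 = 0 ∨ c % 2 = 0 := by
      by_contra hcon
      push Not at hcon
      have h4 : b % 2 = 1 := by omega
      have h5 : c % 2 = 1 := by omega
      have h6 : (a * d - b * c) % 2 = 0 := by
        rw [Int.sub_emod, Int.mul_emod a d, Int.mul_emod b c, ha, hd, h4, h5]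
        norm_num
      rw [hdet] at h6
      norm_num at h6
    rcases Int.emod_two_eq_zero_or_one b with hb | hb
    · rcases Int.emod_two_eq_zero_or_one c with hc | hc
      · exact (base_Uni hEdg hG h1 h3 hdet ha hb hc hd).1
      · have e := (base_Uni hEdg hG h1 h3 (a := a - b) (b := b) (c := c - d) (d := d)
          (by linear_combination hdet) (by omega) hb (by omega) hd).2
        rw [sub_add_cancel, sub_add_cancel] at e
        exact e
    · rcases Int.emod_two_eq_zero_or_one c with hc | hc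
      · have e := base_Uni hEdg hG h1 h3 (a := a) (b := b - a) (c := c) (d := d - c)
          (by linear_combination hdet) ha (by omega) hc (by omega)
        rw [add_sub_cancel, add_sub_cancel] at e
        exact e.1.trans e.2.symm
      · omega
  intro a b c d hdet
  rcases Int.emod_two_eq_zero_or_one (a * d) with h | h
  · -- `b`, `c` are odd
    have h4 : (b * c) % 2 = 1 := by omega
    have hb : b % 2 = 1 := by
      rcases Int.emod_two_eq_zero_or_one b with hb | hb
      · rw [Int.mul_emod, hb, zero_mul, Int.zero_emod] at h4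
        exact absurd h4 (by norm_num)
      · exact hb
    have hc : c % 2 = 1 := by
      rcases Int.emod_two_eq_zero_or_one c with hc | hc
      · rw [Int.mul_emod, hc, mul_zero, Int.zero_emod] at h4
        exact absurd h4 (by norm_num)
      · exact hc
    have e := key b (-a) d (-c) (by linear_combination hdet) hb (by omega)
    have hne : a ≠ 0 ∨ c ≠ 0 := by
      right
      intro h0
      rw [h0] at hc
      norm_num at hc
    have e2 := hG.1 (-1) a c (by norm_num) hne
    rw [neg_one_mul, neg_one_mul] at e2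
    rw [e, e2]
  · have ha : a % 2 = 1 := by
      rcases Int.emod_two_eq_zero_or_one a with ha | ha
      · rw [Int.mul_emod, ha, zero_mul, Int.zero_emod] at h
        exact absurd h (by norm_num)
      · exact ha
    have hd : d % 2 = 1 := by
      rcases Int.emod_two_eq_zero_or_one d with hd | hd
      · rw [Int.mul_emod, hd, mul_zero, Int.zero_emod] at h
        exact absurd h (by norm_num)
      · exact hd
    exact key a b c d hdet ha hd

end Pool.Agent.Helper86.CV
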